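import Pool.Agent.Helper33.DZ.Stmts

namespace Pool.Agent.Helper33.DZ

theorem elima_core (W : Submodule ℚ ℝ) (n : ℕ) (q t : ℕ → ℚ) (D : ℕ → ℝ)
    (j₀ : ℕ) (hj₀ : j₀ < n) (a : ℚ) (ha : a ≠ 0) (hne : j₀ ≠ n - 1 - j₀)
    (hs : ∑ j ∈ Finset.range n, q j • D j ∈ W)
    (hD : ∀ j, j < n → D j + D (n - 1 - j) ∈ W)
    (hq : ∀ j, j < n → q j - q (n - 1 - j) = t j)
    (hT : ∀ j, j < n → j ≠ j₀ → j ≠ n - 1 - j₀ → t j • D j ∈ W)
    (h0 : t j₀ = -a) (h0' : t (n - 1 - j₀) = a) : D j₀ ∈ W := by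
  have hs2 : ∑ j ∈ Finset.range n, (q j • D j + q (n - 1 - j) • D (n - 1 - j)) ∈ W := by
    rw [Finset.sum_add_distrib]
    have := Finset.sum_range_reflect (fun j => q j • D j) n
    rw [this]
    exact W.add_mem hs hs
  have hs3 : ∑ j ∈ Finset.range n, t j • D j ∈ W := by
    have h3 : ∑ j ∈ Finset.range n, q (n - 1 - j) • (D j + D (n - 1 - j)) ∈ W :=
      W.sum_mem fun j hj => W.smul_mem _ (hD j (Finset.mem_range.1 hj))
    have h4 := W.sub_mem hs2 h3
    rw [← Finset.sum_sub_distrib] at h4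
    have h5 : ∀ j ∈ Finset.range n, (q j • D j + q (n - 1 - j) • D (n - 1 - j)) -
        q (n - 1 - j) • (D j + D (n - 1 - j)) = t j • D j := by
      intro j hj
      rw [← hq j (Finset.mem_range.1 hj)]
      module
    rw [Finset.sum_congr rfl h5] at h4
    exact h4
  set x : ℝ := a • D j₀ with hx
  have hs4 : ∑ j ∈ Finset.range n, (t j • D j + ((if j = j₀ then x else 0) +
      (if j = n - 1 - j₀ then x else 0))) ∈ W := by
    refine W.sum_mem fun j hj => ?_
    have hj' := Finset.mem_range.1 hj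
    by_cases h1 : j = j₀
    · subst h1
      rw [if_pos rfl, if_neg hne, h0, hx]
      have : -a • D j + (a • D j + 0) = 0 := by module
      rw [this]
      exact W.zero_mem
    · by_cases h2 : j = n - 1 - j₀
      · rw [if_neg h1, if_pos h2, h2, h0', hx]
        have h6 := W.smul_mem a (hD j₀ hj₀)
        have : a • D (n - 1 - j₀) + (0 + a • D j₀) = a • (D j₀ + D (n - 1 - j₀)) := by module
        rw [this]
        exact h6
      · rw [if_neg h1, if_neg h2, add_zero, add_zero]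
        exact hT j hj' h1 h2
  rw [Finset.sum_add_distrib, Finset.sum_add_distrib, Finset.sum_ite_eq', Finset.sum_ite_eq',
    if_pos (Finset.mem_range.2 hj₀), if_pos (Finset.mem_range.2 (by omega))] at hs4
  have h7 := W.sub_mem hs4 hs3
  have h8 := W.smul_mem ((2 * a)⁻¹) h7
  have h9 : (2 * a)⁻¹ • (∑ j ∈ Finset.range n, t j • D j + (x + x) -
      ∑ j ∈ Finset.range n, t j • D j) = D j₀ := by
    have : ∑ j ∈ Finset.range n, t j • D j + (x + x) -
      ∑ j ∈ Finset.range n, t j • D j = (2 * a) • D j₀ := by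
      rw [hx]; module
    rw [this, smul_smul, inv_mul_cancel₀ (mul_ne_zero two_ne_zero ha), one_smul]
  rw [h9] at h8
  exact h8

theorem st_ELIMA (hSTUF : ST_STUF) (hANTI : ST_ANTI) (hREL : ST_REL) (hEXIST : ST_EXIST) :
    ST_ELIMA := by
  intro m hm C hC hcard i₀ hi₀
  obtain ⟨hi1, hi2⟩ := hC i₀ hi₀
  set W : Submodule ℚ ℝ :=
    Submodule.span ℚ (uu m '' ((Finset.range (m - 1) \ C : Finset ℕ) : Set ℕ)) with hW
  have hmem : ∀ i, i < m - 1 → i ∉ C → uu m i ∈ W := by
    intro i h1 h2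
    apply Submodule.subset_span
    refine ⟨i, ?_, rfl⟩
    rw [Finset.mem_coe, Finset.mem_sdiff, Finset.mem_range]
    exact ⟨h1, h2⟩
  -- the set N
  set N : Finset ℕ := C.image (fun i => 2 * m - 2 * i - 2) with hN
  have hNp : ∀ n ∈ N, Even n ∧ 2 ≤ n ∧ n < m - 1 := by
    intro n hn
    rw [hN, Finset.mem_image] at hn
    obtain ⟨i, hi, rfl⟩ := hn
    obtain ⟨h1, h2⟩ := hC i hi
    refine ⟨⟨m - i - 1, by omega⟩, by omega, by omega⟩
  have hNc : N.card ≤ dS m := le_trans Finset.card_image_le hcard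
  have hn0 : 2 * m - 2 * i₀ - 2 ∈ N := by
    rw [hN, Finset.mem_image]
    exact ⟨i₀, hi₀, rfl⟩
  obtain ⟨c, hc, hc1, hc0⟩ := hEXIST m N hNp hNc _ hn0
  obtain ⟨hanti, -, -⟩ := hANTI (2 * m - 2) c hc
  obtain ⟨κ, hκ⟩ := hREL m c hm hc
  have hzt : zt (2 * m) ∈ W := by
    have h := hmem 0 (by omega) (fun h => by have := (hC 0 h).1; omega)
    rwa [uu, if_pos rfl] at h
  have hchoose : ∀ j, j < m - 2 → (((2 * m - 2).choose (2 * j + 2) : ℕ) : ℚ) ≠ 0 := by
    intro j hj
    have := Nat.choose_pos (n := 2 * m - 2) (k := 2 * j + 2) (by omega)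
    exact_mod_cast this.ne'
  have hcsymm : ∀ j, j < m - 2 → (2 * m - 2).choose (2 * (m - 2 - 1 - j) + 2) =
      (2 * m - 2).choose (2 * j + 2) := by
    intro j hj
    apply Nat.choose_symm_of_eq_add
    omega
  -- values of c
  have hcN : ∀ i ∈ C, i ≠ i₀ → c (2 * m - 2 * i - 2) = 0 := by
    intro i hi hne
    apply hc0
    · rw [hN, Finset.mem_image]
      exact ⟨i, hi, rfl⟩
    · have := (hC i hi).2
      omega
  have hcC : ∀ i ∈ C, i ≠ i₀ → c (2 * i) = 0 := by
    intro i hi hne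
    have h1 := hanti (2 * m - 2 * i - 2) (by omega)
    have h2 := (hC i hi).2
    have h3 : 2 * m - 2 - (2 * m - 2 * i - 2) = 2 * i := by omega
    rw [h3, hcN i hi hne, neg_zero] at h1
    exact h1
  have hD : ∀ j, j < m - 2 → dz (2 * j + 3) (2 * m - 2 * j - 3) +
      dz (2 * (m - 2 - 1 - j) + 3) (2 * m - 2 * (m - 2 - 1 - j) - 3) ∈ W := by
    intro j hj
    have e1 : 2 * (m - 2 - 1 - j) + 3 = 2 * m - 2 * j - 3 := by omega
    have e2 : 2 * m - 2 * (m - 2 - 1 - j) - 3 = 2 * j + 3 := by omega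
    rw [e1, e2]
    have hst := hSTUF (2 * j + 3) (2 * m - 2 * j - 3) (by omega) (by omega)
    have e3 : 2 * j + 3 + (2 * m - 2 * j - 3) = 2 * m := by omega
    rw [e3] at hst
    have hp : zt (2 * j + 3) * zt (2 * m - 2 * j - 3) ∈ W := by
      by_cases hjm : 2 * j + 3 ≤ m
      · have h := hmem (j + 1) (by omega) (fun h => by have := (hC _ h).1; omega)
        rw [uu, if_neg (by omega), if_pos (by omega)] at h
        have e4 : 2 * (j + 1) + 1 = 2 * j + 3 := by omega
        have e5 : 2 * m - 2 * (j + 1) - 1 = 2 * m - 2 * j - 3 := by omega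
        rw [e4, e5] at h
        exact h
      · have h := hmem (m - 2 - j) (by omega) (fun h => by have := (hC _ h).1; omega)
        rw [uu, if_neg (by omega), if_pos (by omega)] at h
        have e4 : 2 * (m - 2 - j) + 1 = 2 * m - 2 * j - 3 := by omega
        have e5 : 2 * m - 2 * (m - 2 - j) - 1 = 2 * j + 3 := by omega
        rw [e4, e5, mul_comm] at h
        exact h
    have h2 := W.sub_mem hp hzt
    have h3 : zt (2 * j + 3) * zt (2 * m - 2 * j - 3) - zt (2 * m) =
        dz (2 * j + 3) (2 * m - 2 * j - 3) + dz (2 * m - 2 * j - 3) (2 * j + 3) := by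
      rw [hst]; ring
    rwa [h3] at h2
  have hDC : ∀ j, j < m - 2 → m < 2 * j + 3 → j + 1 ∉ C →
      dz (2 * j + 3) (2 * m - 2 * j - 3) ∈ W := by
    intro j hj h1 h2
    have h := hmem (j + 1) (by omega) h2
    rw [uu, if_neg (by omega), if_neg (by omega)] at h
    have e4 : 2 * (j + 1) + 1 = 2 * j + 3 := by omega
    have e5 : 2 * m - 2 * (j + 1) - 1 = 2 * m - 2 * j - 3 := by omega
    rw [e4, e5] at h
    exact h
  have hfin := elima_core W (m - 2)
    (fun j => hh (2 * m - 2) c (2 * j + 2) / ((2 * m - 2).choose (2 * j + 2) : ℚ))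
    (fun j => c (2 * j + 2) / ((2 * m - 2).choose (2 * j + 2) : ℚ))
    (fun j => dz (2 * j + 3) (2 * m - 2 * j - 3)) (i₀ - 1) (by omega)
    (1 / ((2 * m - 2).choose (2 * (i₀ - 1) + 2) : ℚ))
    (one_div_ne_zero (hchoose _ (by omega))) (by omega) ?_ hD ?_ ?_ ?_ ?_
  · have e1 : 2 * (i₀ - 1) + 3 = 2 * i₀ + 1 := by omega
    have e2 : 2 * m - 2 * (i₀ - 1) - 3 = 2 * m - 2 * i₀ - 1 := by omega
    simp only [e1, e2] at hfin
    rw [uu, if_neg (by omega), if_neg (by omega)]
    exact hfin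
  · simp only [Rat.smul_def]
    rw [hκ, ← Rat.smul_def]
    exact W.smul_mem κ hzt
  · intro j hj
    rw [hcsymm j hj, ← sub_div]
    congr 1
    rw [hc.rel (2 * j + 2) (by omega)]
    congr 2
    omega
  · intro j hj h1 h2
    by_cases hjC : j + 1 ∈ C
    · have h3 := hcC (j + 1) hjC (by omega)
      have e : 2 * (j + 1) = 2 * j + 2 := by omega
      rw [e] at h3
      rw [h3, zero_div, zero_smul]
      exact W.zero_mem
    · by_cases hjC' : m - 2 - j ∈ C
      · have h3 := hcN (m - 2 - j) hjC' (by omega)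
        have e : 2 * m - 2 * (m - 2 - j) - 2 = 2 * j + 2 := by omega
        rw [e] at h3
        rw [h3, zero_div, zero_smul]
        exact W.zero_mem
      · apply W.smul_mem
        rcases lt_trichotomy m (2 * j + 3) with h3 | h3 | h3
        · exact hDC j hj h3 hjC
        · have h4 := hD j hj
          have e1 : m - 2 - 1 - j = j := by omega
          rw [e1] at h4
          have h5 := W.smul_mem (2⁻¹ : ℚ) h4
          have h6 : (2⁻¹ : ℚ) • (dz (2 * j + 3) (2 * m - 2 * j - 3) +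
              dz (2 * j + 3) (2 * m - 2 * j - 3)) = dz (2 * j + 3) (2 * m - 2 * j - 3) := by
            module
          rwa [h6] at h5
        · have h4 := hD j hj
          have h5 := hDC (m - 2 - 1 - j) (by omega) (by omega) (by
            have : m - 2 - 1 - j + 1 = m - 2 - j := by omega
            rwa [this])
          have h6 := W.sub_mem h4 h5
          rwa [add_sub_cancel_right] at h6
  · have h1 := hanti (2 * m - 2 * i₀ - 2) (by omega)
    have e1 : 2 * m - 2 - (2 * m - 2 * i₀ - 2) = 2 * (i₀ - 1) + 2 := by omega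
    rw [e1, hc1] at h1
    rw [h1]
    ring
  · rw [hcsymm _ (by omega)]
    have e1 : 2 * (m - 2 - 1 - (i₀ - 1)) + 2 = 2 * m - 2 * i₀ - 2 := by omega
    rw [e1, hc1]

end Pool.Agent.Helper33.DZ
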